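import Mathlib

/-!
# Orthonormal polynomials of a functional which is symmetric about `1/2`
-/

set_option autoImplicit false

open Polynomial Finset

namespace Pool.Agent.H60.CE

/-- `P` is the system of orthonormal polynomials of `L`, with recurrence coefficients `a`, `b`. -/
structure OP (L : ℝ[X] →ₗ[ℝ] ℝ) (P : ℕ → ℝ[X]) (a b : ℕ → ℝ) : Prop where
  deg : ∀ n, (P n).natDegree = n
  lead : ∀ n, 0 < (P n).leadingCoeff
  orth : ∀ m n, L (P m * P n) = if m = n then 1 else 0
  rec0 : X * P 0 = C (a 1) * P 1 + C (b 1) * P 0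
  recur : ∀ n, X * P (n + 1) = C (a (n + 2)) * P (n + 2) + C (b (n + 2)) * P (n + 1) +
    C (a (n + 1)) * P n

section

variable {L : ℝ[X] →ₗ[ℝ] ℝ} {P : ℕ → ℝ[X]} {a b : ℕ → ℝ}

theorem L_C_mul (L : ℝ[X] →ₗ[ℝ] ℝ) (c : ℝ) (p : ℝ[X]) : L (C c * p) = c * L p := by
  rw [C_mul', map_smul, smul_eq_mul]

theorem OP.ne (h : OP L P a b) (n : ℕ) : P n ≠ 0 := by
  intro h0
  have := h.lead n
  rw [h0, leadingCoeff_zero] at this
  exact lt_irrefl _ this

theorem OP.coeff_self (h : OP L P a b) (n : ℕ) : (P n).coeff n = (P n).leadingCoeff := by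
  rw [leadingCoeff, h.deg]

theorem OP.coeff_lt (h : OP L P a b) {m n : ℕ} (hmn : m < n) : (P m).coeff n = 0 := by
  apply coeff_eq_zero_of_natDegree_lt
  rw [h.deg]
  exact hmn

theorem OP.lead_rec (h : OP L P a b) (n : ℕ) :
    (P n).leadingCoeff = a (n + 1) * (P (n + 1)).leadingCoeff := by
  rcases n with _ | n
  · have h1 := congrArg (fun p => p.coeff 1) h.rec0
    simp only [coeff_X_mul, coeff_add, coeff_C_mul] at h1
    rw [h.coeff_self 0, h.coeff_self 1, h.coeff_lt (by norm_num), mul_zero, add_zero] at h1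
    exact h1
  · have h1 := congrArg (fun p => p.coeff (n + 2)) (h.recur n)
    simp only [coeff_X_mul, coeff_add, coeff_C_mul] at h1
    rw [h.coeff_self (n + 1), h.coeff_self (n + 2), h.coeff_lt (m := n + 1) (n := n + 2) (by omega),
      h.coeff_lt (m := n) (n := n + 2) (by omega), mul_zero, add_zero, mul_zero, add_zero] at h1
    exact h1

theorem OP.a_pos (h : OP L P a b) (n : ℕ) : 0 < a (n + 1) := by
  have h1 := h.lead_rec n
  have h2 := h.lead n
  have h3 := h.lead (n + 1)
  by_contra h4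
  push Not at h4
  nlinarith

theorem OP.b_eq (h : OP L P a b) (n : ℕ) : L (X * (P n * P n)) = b (n + 1) := by
  rcases n with _ | n
  · have h1 : X * (P 0 * P 0) = C (a 1) * (P 1 * P 0) + C (b 1) * (P 0 * P 0) := by
      rw [← mul_assoc, h.rec0]; ring
    rw [h1, map_add, L_C_mul, L_C_mul, h.orth, h.orth]
    simp
  · have h1 : X * (P (n + 1) * P (n + 1)) = C (a (n + 2)) * (P (n + 2) * P (n + 1)) +
        C (b (n + 2)) * (P (n + 1) * P (n + 1)) + C (a (n + 1)) * (P n * P (n + 1)) := by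
      rw [← mul_assoc, h.recur n]; ring
    rw [h1, map_add, map_add, L_C_mul, L_C_mul, L_C_mul, h.orth, h.orth, h.orth]
    simp

/-- reflection -/
noncomputable def rf (p : ℝ[X]) : ℝ[X] := p.comp (1 - X)

theorem rf_mul (p q : ℝ[X]) : rf (p * q) = rf p * rf q := mul_comp _ _ _

theorem rf_X : rf X = 1 - X := X_comp

theorem rf_C (c : ℝ) : rf (C c) = C c := C_comp

theorem rf_add (p q : ℝ[X]) : rf (p + q) = rf p + rf q := add_comp

variable (hsym : ∀ p : ℝ[X], L (rf p) = L p)

include hsym in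
theorem OP.b_half (h : OP L P a b) (n : ℕ) (hn : rf (P n) = C ((-1) ^ n) * P n) :
    b (n + 1) = 1 / 2 := by
  have h1 : rf (X * (P n * P n)) = P n * P n - X * (P n * P n) := by
    rw [rf_mul, rf_mul, hn, rf_X]
    have : (C ((-1 : ℝ) ^ n) * P n * (C ((-1) ^ n) * P n) : ℝ[X]) = P n * P n := by
      have h2 : (C ((-1 : ℝ) ^ n) * C ((-1) ^ n) : ℝ[X]) = 1 := by
        rw [← C_mul, ← mul_pow]; simp
      calc (C ((-1 : ℝ) ^ n) * P n * (C ((-1) ^ n) * P n) : ℝ[X])
          = (C ((-1 : ℝ) ^ n) * C ((-1) ^ n)) * (P n * P n) := by ring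
        _ = P n * P n := by rw [h2, one_mul]
    rw [this]; ring
  have h2 := hsym (X * (P n * P n))
  rw [h1, map_sub, h.b_eq, h.orth, if_pos rfl] at h2
  linarith

include hsym in
theorem OP.parity (h : OP L P a b) : ∀ n, rf (P n) = C ((-1) ^ n) * P n ∧
    rf (P (n + 1)) = C ((-1) ^ (n + 1)) * P (n + 1) := by
  intro n
  induction n with
  | zero =>
    have h0 : rf (P 0) = C ((-1) ^ 0) * P 0 := by
      have h1 : P 0 = C ((P 0).coeff 0) := eq_C_of_natDegree_eq_zero (h.deg 0)
      rw [h1, rf_C]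
      simp
    refine ⟨h0, ?_⟩
    have hb := h.b_half hsym 0 h0
    have hr := h.rec0
    rw [zero_add] at hb
    rw [hb] at hr
    have h1 : C (a 1) * P 1 = (X - C (1 / 2)) * P 0 := by
      rw [sub_mul, hr]; ring
    have h2 := congrArg rf h1
    rw [rf_mul, rf_C, rf_mul, h0] at h2
    have h3 : rf (X - C (1 / 2)) = -(X - C (1 / 2)) := by
      unfold rf
      rw [sub_comp, X_comp, C_comp]
      have : (1 : ℝ[X]) = C (1 / 2) + C (1 / 2) := by
        rw [← C_add]; norm_num
      rw [this]; ring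
    rw [h3, pow_zero, C_1, one_mul, neg_mul, ← h1] at h2
    have h4 : (C (a 1) : ℝ[X]) ≠ 0 := by
      rw [Ne, C_eq_zero]; exact (h.a_pos 0).ne'
    apply mul_left_cancel₀ h4
    rw [h2]
    simp
  | succ n ih =>
    refine ⟨ih.2, ?_⟩
    have hb := h.b_half hsym (n + 1) ih.2
    have hr := h.recur n
    rw [hb] at hr
    have h1 : C (a (n + 2)) * P (n + 2) = (X - C (1 / 2)) * P (n + 1) - C (a (n + 1)) * P n := by
      rw [sub_mul, hr]; ring
    have h2 := congrArg rf h1
    have h3 : rf (X - C (1 / 2)) = -(X - C (1 / 2)) := by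
      unfold rf
      rw [sub_comp, X_comp, C_comp]
      have : (1 : ℝ[X]) = C (1 / 2) + C (1 / 2) := by
        rw [← C_add]; norm_num
      rw [this]; ring
    have h5 : rf ((X - C (1 / 2)) * P (n + 1) - C (a (n + 1)) * P n) =
        rf (X - C (1 / 2)) * rf (P (n + 1)) - C (a (n + 1)) * rf (P n) := by
      unfold rf
      rw [sub_comp, mul_comp, mul_comp, C_comp]
    rw [rf_mul, rf_C, h5, h3, ih.1, ih.2] at h2
    have h4 : (C (a (n + 2)) : ℝ[X]) ≠ 0 := by
      rw [Ne, C_eq_zero]; exact (h.a_pos (n + 1)).ne'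
    apply mul_left_cancel₀ h4
    rw [show n + 1 + 1 = n + 2 from rfl, h2]
    have h6 : (C ((-1 : ℝ) ^ (n + 1)) : ℝ[X]) = - C ((-1) ^ n) := by
      rw [pow_succ, C_mul]; simp
    have h7 : (C ((-1 : ℝ) ^ (n + 2)) : ℝ[X]) = C ((-1) ^ n) := by
      rw [pow_add]; simp
    rw [h6, h7]
    linear_combination (-(C ((-1 : ℝ) ^ n) : ℝ[X])) * h1

include hsym in
theorem OP.T_rec (h : OP L P a b) (n : ℕ) : (X - C (1 / 2)) * P (n + 1) =
    C (a (n + 2)) * P (n + 2) + C (a (n + 1)) * P n := by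
  have hb := h.b_half hsym (n + 1) (h.parity hsym (n + 1)).1
  have hr := h.recur n
  rw [hb] at hr
  rw [sub_mul, hr]; ring

include hsym in
theorem OP.eval_odd (h : OP L P a b) (k : ℕ) : (P (2 * k + 1)).eval (1 / 2) = 0 := by
  have h1 := congrArg (fun p => p.eval (1 / 2 : ℝ)) (h.parity hsym (2 * k + 1)).1
  simp only [rf, eval_comp, eval_sub, eval_one, eval_X, eval_mul, eval_C] at h1
  rw [show (1 : ℝ) - 1 / 2 = 1 / 2 by norm_num, Odd.neg_one_pow ⟨k, rfl⟩] at h1
  linarith

include hsym in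
theorem OP.eval_even (h : OP L P a b) (k : ℕ) :
    a (2 * k + 2) * (P (2 * k + 2)).eval (1 / 2) = - (a (2 * k + 1) * (P (2 * k)).eval (1 / 2)) := by
  have h1 := congrArg (fun p => p.eval (1 / 2 : ℝ)) (h.T_rec hsym (2 * k))
  simp only [eval_add, eval_sub, eval_X, eval_mul, eval_C] at h1
  linarith

theorem OP.orth_lower (h : OP L P a b) (n : ℕ) : ∀ (d : ℕ) (q : ℝ[X]), q.natDegree ≤ d → d < n →
    L (q * P n) = 0 := by
  intro d
  induction d with
  | zero =>
    intro q hq hn
    have h1 : q = C (q.coeff 0) := eq_C_of_natDegree_le_zero hq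
    have h2 : P 0 = C ((P 0).coeff 0) := eq_C_of_natDegree_eq_zero (h.deg 0)
    have h3 : (P 0).coeff 0 ≠ 0 := by
      rw [h.coeff_self]; exact (h.lead 0).ne'
    have h4 : q = C (q.coeff 0 / (P 0).coeff 0) * P 0 := by
      rw [h2, coeff_C_zero, ← C_mul, div_mul_cancel₀ _ h3]
      exact h1
    rw [h4, mul_assoc, L_C_mul, h.orth, if_neg (by omega), mul_zero]
  | succ d ih =>
    intro q hq hn
    set c := q.coeff (d + 1) / (P (d + 1)).leadingCoeff with hc
    have h1 : (q - C c * P (d + 1)).natDegree ≤ d := by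
      rw [natDegree_le_iff_coeff_eq_zero]
      intro N hN
      rw [coeff_sub, coeff_C_mul]
      rcases Nat.lt_or_ge (d + 1) N with h2 | h2
      · rw [coeff_eq_zero_of_natDegree_lt (lt_of_le_of_lt hq h2), h.coeff_lt h2]
        ring
      · have : N = d + 1 := by omega
        subst this
        rw [h.coeff_self, hc, div_mul_cancel₀ _ (h.lead (d + 1)).ne', sub_self]
    have h2 := ih _ h1 (by omega)
    rw [sub_mul, map_sub, mul_assoc, L_C_mul, h.orth, if_neg (by omega), mul_zero, sub_zero] at h2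
    exact h2

theorem OP.L_top (h : OP L P a b) {n : ℕ} {q : ℝ[X]} (hq : q.natDegree ≤ n) :
    L (q * P n) = q.coeff n / (P n).leadingCoeff := by
  rcases n with _ | n
  · have h1 : q = C (q.coeff 0) := eq_C_of_natDegree_le_zero hq
    have h2 : P 0 = C ((P 0).coeff 0) := eq_C_of_natDegree_eq_zero (h.deg 0)
    have h3 : (P 0).coeff 0 ≠ 0 := by
      rw [h.coeff_self]; exact (h.lead 0).ne'
    have h4 : q = C (q.coeff 0 / (P 0).leadingCoeff) * P 0 := by
      rw [← h.coeff_self]
      conv_rhs => rw [h2]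
      rw [coeff_C_zero, ← C_mul, div_mul_cancel₀ _ h3]
      exact h1
    calc L (q * P 0) = L (C (q.coeff 0 / (P 0).leadingCoeff) * (P 0 * P 0)) := by
          rw [← mul_assoc, ← h4]
      _ = _ := by rw [L_C_mul, h.orth, if_pos rfl, mul_one]
  · set c := q.coeff (n + 1) / (P (n + 1)).leadingCoeff with hc
    have h1 : (q - C c * P (n + 1)).natDegree ≤ n := by
      rw [natDegree_le_iff_coeff_eq_zero]
      intro N hN
      rw [coeff_sub, coeff_C_mul]
      rcases Nat.lt_or_ge (n + 1) N with h2 | h2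
      · rw [coeff_eq_zero_of_natDegree_lt (lt_of_le_of_lt hq h2), h.coeff_lt h2]
        ring
      · have : N = n + 1 := by omega
        subst this
        rw [h.coeff_self, hc, div_mul_cancel₀ _ (h.lead (n + 1)).ne', sub_self]
    have h2 := h.orth_lower (n + 1) n _ h1 (by omega)
    rw [sub_mul, map_sub, mul_assoc, L_C_mul, h.orth, if_pos rfl, mul_one, sub_eq_zero] at h2
    exact h2

variable (hsq : ∀ p : ℝ[X], 0 ≤ L (p * p))

include hsq in
/-- Bessel's inequality for one polynomial -/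
theorem OP.bessel_one (h : OP L P a b) (n : ℕ) (p : ℝ[X]) : L (p * P n) ^ 2 ≤ L (p * p) := by
  have h1 := hsq (p - C (L (p * P n)) * P n)
  have h2 : (p - C (L (p * P n)) * P n) * (p - C (L (p * P n)) * P n) =
      p * p - C (2 * L (p * P n)) * (p * P n) + C (L (p * P n) ^ 2) * (P n * P n) := by
    rw [C_mul, C_pow, show (C (2 : ℝ) : ℝ[X]) = 2 from rfl]; ring
  rw [h2, map_add, map_sub, L_C_mul, L_C_mul, h.orth, if_pos rfl] at h1
  nlinarith

include hsq in
/-- Bessel's inequality -/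
theorem OP.bessel (h : OP L P a b) (N : ℕ) (p : ℝ[X]) :
    ∑ j ∈ range (N + 1), L (p * P j) ^ 2 ≤ L (p * p) := by
  set S : ℝ[X] := ∑ j ∈ range (N + 1), C (L (p * P j)) * P j with hS
  have h1 : L (p * S) = ∑ j ∈ range (N + 1), L (p * P j) ^ 2 := by
    rw [hS, mul_sum, map_sum]
    refine sum_congr rfl fun j _ => ?_
    rw [mul_left_comm, L_C_mul, sq]
  have h2 : L (S * S) = ∑ j ∈ range (N + 1), L (p * P j) ^ 2 := by
    conv_lhs => rw [hS, sum_mul_sum]
    rw [map_sum]
    refine sum_congr rfl fun i hi => ?_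
    rw [map_sum]
    have h3 : ∀ j ∈ range (N + 1), L (C (L (p * P i)) * P i * (C (L (p * P j)) * P j)) =
        if i = j then L (p * P i) ^ 2 else 0 := by
      intro j _
      have : C (L (p * P i)) * P i * (C (L (p * P j)) * P j) =
        C (L (p * P i) * L (p * P j)) * (P i * P j) := by rw [C_mul]; ring
      rw [this, L_C_mul, h.orth]
      by_cases hij : i = j
      · subst hij; rw [if_pos rfl, if_pos rfl]; ring
      · rw [if_neg hij, if_neg hij, mul_zero]
    rw [sum_congr rfl h3, sum_ite_eq, if_pos hi]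
  have h3 := hsq (p - S)
  have h4 : (p - S) * (p - S) = p * p - C 2 * (p * S) + S * S := by
    rw [show (C (2 : ℝ) : ℝ[X]) = 2 from rfl]; ring
  rw [h4, map_add, map_sub, L_C_mul, h1, h2] at h3
  linarith

theorem OP.expand (h : OP L P a b) (N : ℕ) (p : ℝ[X]) (hp : p.natDegree ≤ N) :
    p = ∑ j ∈ range (N + 1), C (L (p * P j)) * P j := by
  set S : ℝ[X] := ∑ j ∈ range (N + 1), C (L (p * P j)) * P j with hS
  by_contra hne
  have hq0 : p - S ≠ 0 := sub_ne_zero.2 hne
  have hSd : S.natDegree ≤ N := by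
    rw [hS]
    refine natDegree_sum_le_of_forall_le _ _ fun j hj => ?_
    refine (natDegree_C_mul_le _ _).trans ?_
    rw [h.deg]
    exact Nat.lt_succ_iff.1 (mem_range.1 hj)
  have hqd : (p - S).natDegree ≤ N := (natDegree_sub_le _ _).trans (max_le hp hSd)
  set k := (p - S).natDegree with hk
  have h1 : L ((p - S) * P k) = 0 := by
    have h2 : L (S * P k) = L (p * P k) := by
      rw [hS, sum_mul, map_sum]
      have h3 : ∀ j ∈ range (N + 1), L (C (L (p * P j)) * P j * P k) =
          if j = k then L (p * P k) else 0 := by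
        intro j _
        rw [mul_assoc, L_C_mul, h.orth]
        by_cases hjk : j = k
        · rw [if_pos hjk, if_pos hjk, hjk, mul_one]
        · rw [if_neg hjk, if_neg hjk, mul_zero]
      rw [sum_congr rfl h3, sum_ite_eq', if_pos (mem_range.2 (by omega))]
    rw [sub_mul, map_sub, h2, sub_self]
  rw [h.L_top hk.le] at h1
  have h2 : (p - S).coeff k ≠ 0 := by
    rw [hk]
    exact leadingCoeff_ne_zero.2 hq0
  exact (div_ne_zero h2 (h.lead k).ne') h1

include hsq in
/-- the Christoffel function -/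
theorem OP.christoffel (h : OP L P a b) (N : ℕ) (p : ℝ[X]) (hp : p.natDegree ≤ N) (t : ℝ) :
    (p.eval t) ^ 2 ≤ L (p * p) * ∑ j ∈ range (N + 1), ((P j).eval t) ^ 2 := by
  have h1 : p.eval t = ∑ j ∈ range (N + 1), L (p * P j) * (P j).eval t := by
    conv_lhs => rw [h.expand N p hp]
    rw [eval_finsetSum]
    refine sum_congr rfl fun j _ => ?_
    rw [eval_mul, eval_C]
  rw [h1]
  refine (sum_mul_sq_le_sq_mul_sq _ _ _).trans ?_
  exact mul_le_mul_of_nonneg_right (h.bessel hsq N p) (sum_nonneg fun _ _ => sq_nonneg _)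

end

end Pool.Agent.H60.CE
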