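import Mathlib

/-!
# Dickson polynomials of a polynomial, and a growth lemma
-/

set_option autoImplicit false

open Polynomial Finset

namespace Pool.Agent.H60.CE

/-- Dickson (Chebyshev) polynomials evaluated at the polynomial `Q` -/
noncomputable def Fd (Q : ℝ[X]) (ρ : ℝ) : ℕ → ℝ[X]
  | 0 => C 2
  | 1 => Q
  | (m + 2) => Q * Fd Q ρ (m + 1) - C (ρ ^ 2) * Fd Q ρ m

theorem Fd_zero (Q : ℝ[X]) (ρ : ℝ) : Fd Q ρ 0 = C 2 := rfl
theorem Fd_one (Q : ℝ[X]) (ρ : ℝ) : Fd Q ρ 1 = Q := rfl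
theorem Fd_succ (Q : ℝ[X]) (ρ : ℝ) (m : ℕ) :
    Fd Q ρ (m + 2) = Q * Fd Q ρ (m + 1) - C (ρ ^ 2) * Fd Q ρ m := rfl

theorem Fd_monic {Q : ℝ[X]} (hQ : Q.Monic) (hd : 0 < Q.natDegree) (ρ : ℝ) : ∀ m : ℕ,
    (Fd Q ρ (m + 1)).Monic ∧ (Fd Q ρ (m + 1)).natDegree = (m + 1) * Q.natDegree ∧
      (Fd Q ρ m).natDegree ≤ m * Q.natDegree := by
  intro m
  induction m with
  | zero =>
    refine ⟨hQ, by rw [zero_add, one_mul, Fd_one], ?_⟩
    rw [Fd_zero, natDegree_C, zero_mul]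
  | succ m ih =>
    obtain ⟨h1, h2, h3⟩ := ih
    have h4 : (Q * Fd Q ρ (m + 1)).Monic := hQ.mul h1
    have h5 : (Q * Fd Q ρ (m + 1)).natDegree = (m + 2) * Q.natDegree := by
      rw [hQ.natDegree_mul h1, h2]; ring
    have h6 : (C (ρ ^ 2) * Fd Q ρ m).natDegree < (Q * Fd Q ρ (m + 1)).natDegree := by
      rw [h5]
      refine lt_of_le_of_lt ((natDegree_C_mul_le _ _).trans h3) ?_
      nlinarith
    have h7 : (C (ρ ^ 2) * Fd Q ρ m).degree < (Q * Fd Q ρ (m + 1)).degree :=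
      degree_lt_degree h6
    refine ⟨?_, ?_, h2.le⟩
    · rw [show m + 1 + 1 = m + 2 from rfl, Fd_succ]
      exact h4.sub_of_left h7
    · rw [show m + 1 + 1 = m + 2 from rfl, Fd_succ,
        natDegree_sub_eq_left_of_natDegree_lt h6, h5]

theorem Fd_cos {Q : ℝ[X]} {ρ x θ : ℝ} (h : Q.eval x = 2 * ρ * Real.cos θ) : ∀ m : ℕ,
    (Fd Q ρ m).eval x = 2 * ρ ^ m * Real.cos (m * θ) ∧
      (Fd Q ρ (m + 1)).eval x = 2 * ρ ^ (m + 1) * Real.cos ((m + 1 : ℕ) * θ) := by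
  intro m
  induction m with
  | zero =>
    refine ⟨?_, ?_⟩
    · rw [Fd_zero, eval_C]; simp
    · rw [zero_add, Fd_one, h]; simp
  | succ m ih =>
    refine ⟨ih.2, ?_⟩
    rw [show m + 1 + 1 = m + 2 from rfl, Fd_succ, eval_sub, eval_mul, eval_mul, eval_C, ih.1,
      ih.2, h]
    have h1 : Real.cos ((m + 2 : ℕ) * θ) = Real.cos ((m + 1 : ℕ) * θ) * Real.cos θ -
        Real.sin ((m + 1 : ℕ) * θ) * Real.sin θ := by
      rw [← Real.cos_add]; congr 1; push_cast; ring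
    have h2 : Real.cos ((m : ℕ) * θ) = Real.cos ((m + 1 : ℕ) * θ) * Real.cos θ +
        Real.sin ((m + 1 : ℕ) * θ) * Real.sin θ := by
      rw [← Real.cos_sub]; congr 1; push_cast; ring
    rw [h1, h2]
    ring

theorem Fd_bound {Q : ℝ[X]} {ρ x : ℝ} (hρ : 0 < ρ) (h : |Q.eval x| ≤ 2 * ρ) (m : ℕ) :
    (Fd Q ρ m).eval x ^ 2 ≤ 4 * ρ ^ (2 * m) := by
  have h1 : Q.eval x = 2 * ρ * Real.cos (Real.arccos (Q.eval x / (2 * ρ))) := by
    rw [Real.cos_arccos]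
    · field_simp
    · rw [le_div_iff₀ (by positivity)]
      linarith [(abs_le.1 h).1]
    · rw [div_le_iff₀ (by positivity)]
      linarith [(abs_le.1 h).2]
  rw [(Fd_cos h1 m).1]
  have h2 := Real.cos_sq_le_one (m * Real.arccos (Q.eval x / (2 * ρ)))
  have h3 : 0 ≤ ρ ^ (2 * m) := by positivity
  calc (2 * ρ ^ m * Real.cos (m * Real.arccos (Q.eval x / (2 * ρ)))) ^ 2
      = 4 * ρ ^ (2 * m) * Real.cos (m * Real.arccos (Q.eval x / (2 * ρ))) ^ 2 := by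
        rw [mul_comm 2 m, pow_mul]; ring
    _ ≤ 4 * ρ ^ (2 * m) * 1 := by
        apply mul_le_mul_of_nonneg_left h2; positivity
    _ = _ := mul_one _

theorem Fd_large {Q : ℝ[X]} {ρ t lam mu ε : ℝ} (hε : ε ^ 2 = 1) (h : Q.eval t = ε * (lam + mu))
    (hp : lam * mu = ρ ^ 2) : ∀ m : ℕ, (Fd Q ρ m).eval t = ε ^ m * (lam ^ m + mu ^ m) ∧
      (Fd Q ρ (m + 1)).eval t = ε ^ (m + 1) * (lam ^ (m + 1) + mu ^ (m + 1)) := by
  intro m
  induction m with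
  | zero =>
    refine ⟨?_, ?_⟩
    · rw [Fd_zero, eval_C]; norm_num
    · rw [zero_add, Fd_one, h]; ring
  | succ m ih =>
    refine ⟨ih.2, ?_⟩
    rw [show m + 1 + 1 = m + 2 from rfl, Fd_succ, eval_sub, eval_mul, eval_mul, eval_C, ih.1,
      ih.2, h, ← hp]
    have h1 : ε ^ (m + 2) = ε ^ m := by rw [pow_add, hε, mul_one]
    have h2 : ε * (lam + mu) * (ε ^ (m + 1) * (lam ^ (m + 1) + mu ^ (m + 1))) =
        ε ^ (m + 2) * ((lam + mu) * (lam ^ (m + 1) + mu ^ (m + 1))) := by ring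
    rw [h2, h1]
    ring

theorem Fd_half {Q : ℝ[X]} {ρ t lam mu : ℝ} (hl : 0 ≤ lam) (hm : 0 ≤ mu)
    (h : |Q.eval t| = lam + mu) (hp : lam * mu = ρ ^ 2) (m : ℕ) :
    lam ^ (2 * m) ≤ (Fd Q ρ m).eval t ^ 2 := by
  obtain ⟨ε, hε, h1⟩ : ∃ ε : ℝ, ε ^ 2 = 1 ∧ Q.eval t = ε * (lam + mu) := by
    rcases abs_choice (Q.eval t) with h2 | h2
    · exact ⟨1, by norm_num, by rw [one_mul, ← h, h2]⟩
    · exact ⟨-1, by norm_num, by rw [← h, h2]; ring⟩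
  rw [(Fd_large hε h1 hp m).1, mul_pow, ← pow_mul, mul_comm m 2, pow_mul ε, hε, one_pow, one_mul,
    mul_comm 2 m, pow_mul]
  apply pow_le_pow_left₀ (by positivity)
  have : 0 ≤ mu ^ m := by positivity
  linarith

theorem le_one_of_growth {r B : ℝ} {D d : ℕ} (h : ∀ m : ℕ, r ^ m ≤ B * ((m * D + 1 : ℕ) : ℝ) ^ d) :
    r ≤ 1 := by
  by_contra hr
  push Not at hr
  have hB : 0 ≤ B := by
    have := h 0
    simp at this
    linarith
  have h1 := tendsto_pow_const_div_const_pow_of_one_lt d hr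
  have h1' : Filter.Tendsto (fun n : ℕ => B * ((D : ℝ) + 1) ^ d * ((n : ℝ) ^ d / r ^ n))
      Filter.atTop (nhds 0) := by
    have := h1.const_mul (B * ((D : ℝ) + 1) ^ d)
    rwa [mul_zero] at this
  have h2 := h1'.eventually (gt_mem_nhds zero_lt_one)
  obtain ⟨m, hm, hm1⟩ := (h2.and (Filter.eventually_ge_atTop 1)).exists
  have hr0 : 0 < r ^ m := by positivity
  have h3 : ((m * D + 1 : ℕ) : ℝ) ^ d ≤ (((D : ℝ) + 1) * m) ^ d := by
    apply pow_le_pow_left₀ (by positivity)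
    push_cast
    have : (1 : ℝ) ≤ m := by exact_mod_cast hm1
    nlinarith
  have h4 : r ^ m ≤ B * (((D : ℝ) + 1) * m) ^ d :=
    (h m).trans (mul_le_mul_of_nonneg_left h3 hB)
  have h5 : B * ((D : ℝ) + 1) ^ d * ((m : ℝ) ^ d / r ^ m) = B * (((D : ℝ) + 1) * m) ^ d / r ^ m := by
    rw [mul_pow]; ring
  rw [h5, div_lt_one hr0] at hm
  linarith

end Pool.Agent.H60.CE
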