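import Mathlib
import Pool.Agent.H60.CE.Alg
import Pool.Agent.H60.CE.Dick

/-!
# The upper bound for the even coefficients
-/

set_option autoImplicit false

open Polynomial Finset

namespace Pool.Agent.H60.CE

section

variable {L : ℝ[X] →ₗ[ℝ] ℝ} {P : ℕ → ℝ[X]} {a b : ℕ → ℝ} {K : Set ℝ}

/-- the functional is a probability measure on `K ⊆ [0, 1]`, symmetric about `1 / 2` -/
structure Nice (L : ℝ[X] →ₗ[ℝ] ℝ) (K : Set ℝ) : Prop where
  pos : ∀ p : ℝ[X], (∀ x ∈ K, 0 ≤ p.eval x) → 0 ≤ L p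
  one : L 1 = 1
  sym : ∀ p : ℝ[X], L (rf p) = L p
  sub : ∀ x ∈ K, 0 ≤ x ∧ x ≤ 1
  gap : ∀ x ∈ K, 1 / 36 ≤ (x - 1 / 2) ^ 2

theorem Nice.sq (hL : Nice L K) (p : ℝ[X]) : 0 ≤ L (p * p) := by
  apply hL.pos
  intro x _
  rw [eval_mul]
  exact mul_self_nonneg _

theorem Nice.le (hL : Nice L K) {p q : ℝ[X]} (h : ∀ x ∈ K, p.eval x ≤ q.eval x) : L p ≤ L q := by
  have := hL.pos (q - p) (fun x hx => by rw [eval_sub]; linarith [h x hx])
  rw [map_sub] at this
  linarith

theorem Nice.C (hL : Nice L K) (c : ℝ) : L (C c) = c := by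
  have := L_C_mul L c 1
  rw [mul_one, hL.one, mul_one] at this
  exact this

/-- products of the recurrence coefficients -/
noncomputable def A (a : ℕ → ℝ) (n : ℕ) : ℝ := ∏ i ∈ range n, a (i + 1)

theorem A_zero (a : ℕ → ℝ) : A a 0 = 1 := by simp [A]
theorem A_succ (a : ℕ → ℝ) (n : ℕ) : A a (n + 1) = A a n * a (n + 1) := by
  simp [A, prod_range_succ]

theorem A_pos (h : OP L P a b) (n : ℕ) : 0 < A a n := prod_pos fun i _ => h.a_pos i

theorem lead_zero (hL : Nice L K) (h : OP L P a b) : (P 0).leadingCoeff = 1 := by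
  have h2 : P 0 = C ((P 0).coeff 0) := eq_C_of_natDegree_eq_zero (h.deg 0)
  have h1 := h.orth 0 0
  rw [if_pos rfl] at h1
  have h3 : P 0 * P 0 = C ((P 0).coeff 0 * (P 0).coeff 0) := by
    rw [C_mul, ← h2]
  rw [h3, hL.C, h.coeff_self] at h1
  have h4 := h.lead 0
  nlinarith

theorem A_eq (hL : Nice L K) (h : OP L P a b) (n : ℕ) : A a n * (P n).leadingCoeff = 1 := by
  induction n with
  | zero => rw [A_zero, lead_zero hL h, mul_one]
  | succ n ih =>
    rw [A_succ, mul_assoc, ← h.lead_rec]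
    exact ih

theorem A_le (hL : Nice L K) (h : OP L P a b) {n : ℕ} {q : ℝ[X]} (hq : q.natDegree = n)
    (hm : q.Monic) : A a n ^ 2 ≤ L (q * q) := by
  have h1 := h.bessel_one hL.sq n q
  rw [h.L_top hq.le] at h1
  have h2 : q.coeff n = 1 := by rw [← hq]; exact hm
  have h3 := A_eq hL h n
  have h4 : q.coeff n / (P n).leadingCoeff = A a n := by
    rw [h2, div_eq_iff (h.lead n).ne', h3]
  rwa [h4] at h1

theorem a_le_one (hL : Nice L K) (h : OP L P a b) (n : ℕ) : a (n + 1) ≤ 1 := by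
  have h1 := h.bessel_one hL.sq (n + 1) (X * P n)
  have h2 : (X * P n).natDegree = n + 1 := by
    rw [natDegree_X_mul (h.ne n), h.deg]
  have h3 : (X * P n).coeff (n + 1) = (P n).leadingCoeff := by
    rw [coeff_X_mul, h.coeff_self]
  rw [h.L_top h2.le, h3, h.lead_rec n, mul_div_assoc, div_self (h.lead (n + 1)).ne', mul_one] at h1
  have h4 : L (X * P n * (X * P n)) ≤ 1 := by
    have h5 := h.orth n n
    rw [if_pos rfl] at h5
    rw [← h5]
    apply hL.le
    intro x hx
    obtain ⟨h6, h7⟩ := hL.sub x hx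
    simp only [eval_mul, eval_X]
    have : 0 ≤ ((P n).eval x) ^ 2 * (1 - x ^ 2) := by
      apply mul_nonneg (sq_nonneg _)
      nlinarith
    nlinarith
  have h5 := h.a_pos n
  nlinarith

theorem A_anti (hL : Nice L K) (h : OP L P a b) {m n : ℕ} (hmn : m ≤ n) : A a n ≤ A a m := by
  induction n, hmn using Nat.le_induction with
  | base => exact le_rfl
  | succ n _ ih =>
    rw [A_succ]
    have h1 := a_le_one hL h n
    have h2 := A_pos h n
    nlinarith

/-- every odd coefficient is at least `1 / 6` -/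
theorem odd_ge (hL : Nice L K) (h : OP L P a b) (k : ℕ) : 1 / 6 ≤ a (2 * k + 1) := by
  obtain ⟨f, hf⟩ : (X - C (1 / 2)) ∣ P (2 * k + 1) := by
    rw [dvd_iff_isRoot]
    exact h.eval_odd hL.sym k
  have hf0 : f ≠ 0 := by
    rintro rfl
    rw [mul_zero] at hf
    exact h.ne _ hf
  have hdeg : f.natDegree = 2 * k := by
    have h1 := congrArg natDegree hf
    rw [h.deg, natDegree_mul (X_sub_C_ne_zero _) hf0, natDegree_X_sub_C] at h1
    omega
  have hlead : f.coeff (2 * k) = (P (2 * k + 1)).leadingCoeff := by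
    rw [hf, leadingCoeff_mul, leadingCoeff_X_sub_C, one_mul, leadingCoeff, hdeg]
  have h1 := h.bessel_one hL.sq (2 * k) f
  have hr := h.lead_rec (2 * k)
  have hl := h.lead (2 * k + 1)
  have ha := h.a_pos (2 * k)
  rw [h.L_top hdeg.le, hlead, hr] at h1
  have h2 : (P (2 * k + 1)).leadingCoeff / (a (2 * k + 1) * (P (2 * k + 1)).leadingCoeff) =
      1 / a (2 * k + 1) := by
    field_simp
  rw [h2] at h1
  have h3 : L (f * f) ≤ 36 := by
    have h5 := h.orth (2 * k + 1) (2 * k + 1)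
    rw [if_pos rfl] at h5
    have h6 : L (f * f) ≤ L (C 36 * (P (2 * k + 1) * P (2 * k + 1))) := by
      apply hL.le
      intro x hx
      have h7 := hL.gap x hx
      rw [hf]
      simp only [eval_mul, eval_C, eval_sub, eval_X]
      have : 0 ≤ (f.eval x) ^ 2 * (36 * (x - 1 / 2) ^ 2 - 1) := by
        apply mul_nonneg (sq_nonneg _)
        linarith
      nlinarith
    rw [L_C_mul, h5, mul_one] at h6
    exact h6
  have h4 : (1 / a (2 * k + 1)) ^ 2 ≤ 6 ^ 2 := by
    refine h1.trans (h3.trans (by norm_num))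
  have h5 : 1 / a (2 * k + 1) ≤ 6 := by
    have := abs_le_of_sq_le_sq h4 (by norm_num)
    exact (le_abs_self _).trans this
  rw [div_le_iff₀ ha] at h5
  rw [div_le_iff₀ (by norm_num)]
  linarith

/-- the value at the centre -/
theorem eval_A (hL : Nice L K) (h : OP L P a b) (j : ℕ) :
    |(P (2 * j)).eval (1 / 2)| * (∏ i ∈ range j, a (2 * i + 2)) ^ 2 = A a (2 * j) := by
  induction j with
  | zero =>
    have h2 : P 0 = C ((P 0).coeff 0) := eq_C_of_natDegree_eq_zero (h.deg 0)
    have h3 := lead_zero hL h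
    rw [mul_zero, A_zero, h2, eval_C, h.coeff_self, h3]
    simp
  | succ j ih =>
    have h1 := h.eval_even hL.sym j
    have h2 := h.a_pos (2 * j)
    have h3 := h.a_pos (2 * j + 1)
    have h4 : a (2 * j + 2) * |(P (2 * j + 2)).eval (1 / 2)| =
        a (2 * j + 1) * |(P (2 * j)).eval (1 / 2)| := by
      have := congrArg abs h1
      rw [abs_neg, abs_mul, abs_mul, abs_of_pos h2, abs_of_pos h3] at this
      exact this
    rw [show 2 * (j + 1) = 2 * j + 1 + 1 by ring, A_succ, A_succ, ← ih, prod_range_succ]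
    rw [show 2 * j + 1 + 1 = 2 * j + 2 by ring]
    linear_combination (a (2 * j + 2) * (∏ i ∈ range j, a (2 * i + 2)) ^ 2) * h4

end

end Pool.Agent.H60.CE
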