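import Mathlib
import Pool.Agent.H60.CE.Asym

/-!
# The upper bound for the lower limit
-/

set_option autoImplicit false

open Polynomial Finset

namespace Pool.Agent.H60.CE

variable {L : ℝ[X] →ₗ[ℝ] ℝ} {P : ℕ → ℝ[X]} {a b : ℕ → ℝ} {K : Set ℝ}

theorem prod_ge {y : ℕ → ℝ} {s : ℝ} (hs : 0 < s) (hy : ∀ i, 0 < y i) {k0 : ℕ}
    (hk : ∀ k, k0 ≤ k → s ≤ y k) : ∃ c : ℝ, 0 < c ∧ ∀ j, c * s ^ j ≤ ∏ i ∈ range j, y i := by
  obtain ⟨j0, _, hj0⟩ := Finset.exists_min_image (range (k0 + 1))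
    (fun j => (∏ i ∈ range j, y i) / s ^ j) ⟨0, by simp⟩
  refine ⟨(∏ i ∈ range j0, y i) / s ^ j0, ?_, ?_⟩
  · exact div_pos (prod_pos fun i _ => hy i) (by positivity)
  · set c := (∏ i ∈ range j0, y i) / s ^ j0 with hc
    have h1 : ∀ j, j ≤ k0 → c * s ^ j ≤ ∏ i ∈ range j, y i := by
      intro j hj
      have := hj0 j (mem_range.2 (by omega))
      rwa [le_div_iff₀ (by positivity)] at this
    intro j
    rcases le_total j k0 with hj | hj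
    · exact h1 j hj
    · induction j, hj using Nat.le_induction with
      | base => exact h1 k0 le_rfl
      | succ j hj ih =>
        rw [prod_range_succ, pow_succ, ← mul_assoc]
        exact mul_le_mul ih (hk j hj) hs.le (prod_nonneg fun i _ => (hy i).le)

theorem sum_pow_le {N d : ℕ} {f : ℕ → ℝ} (hf : ∀ j, 0 ≤ f j) {B : ℝ}
    (h : ∀ j, j ≤ N → f j ^ d ≤ B) : (∑ j ∈ range (N + 1), f j) ^ d ≤ ((N + 1 : ℕ) : ℝ) ^ d * B := by
  obtain ⟨j0, hj0, hmax⟩ := Finset.exists_max_image (range (N + 1)) f ⟨0, by simp⟩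
  have h1 : ∑ j ∈ range (N + 1), f j ≤ ((N + 1 : ℕ) : ℝ) * f j0 := by
    have := Finset.sum_le_card_nsmul (range (N + 1)) f (f j0) hmax
    rwa [card_range, nsmul_eq_mul] at this
  have h2 : (∑ j ∈ range (N + 1), f j) ^ d ≤ (((N + 1 : ℕ) : ℝ) * f j0) ^ d :=
    pow_le_pow_left₀ (sum_nonneg fun j _ => hf j) h1 d
  refine h2.trans ?_
  rw [mul_pow]
  apply mul_le_mul_of_nonneg_left (h j0 (Nat.lt_succ_iff.1 (mem_range.1 hj0)))
  positivity

theorem main_bound (hL : Nice L K) (h : OP L P a b) {Q : ℝ[X]} (hQ : Q.Monic)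
    (hd : 0 < Q.natDegree) {M : ℝ} (hM : ∀ x ∈ K, |Q.eval x| ≤ M)
    (hv : M < |Q.eval (1 / 2)|) {s : ℝ} (hs : 0 < s) {k0 : ℕ}
    (hk : ∀ k, k0 ≤ k → s ≤ a (2 * k + 2)) :
    s ^ Q.natDegree ≤ (|Q.eval (1 / 2)| - √(Q.eval (1 / 2) ^ 2 - M ^ 2)) / 2 := by
  obtain ⟨d, hdd⟩ : ∃ d, d = Q.natDegree := ⟨_, rfl⟩
  obtain ⟨v, hvv⟩ : ∃ v, v = |Q.eval (1 / 2)| := ⟨_, rfl⟩
  rw [← hdd] at hd ⊢
  rw [← hvv] at hv ⊢
  -- M is positive
  have hKne : K.Nonempty := by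
    rw [Set.nonempty_iff_ne_empty]
    rintro rfl
    have := hL.pos (-1) (fun x hx => hx.elim)
    rw [map_neg, hL.one] at this
    linarith
  obtain ⟨x0, hx0⟩ := hKne
  have hM0 : 0 ≤ M := (abs_nonneg _).trans (hM x0 hx0)
  have hMpos : 0 < M := by
    have h1 := A_le hL h hdd.symm hQ
    have h2 : L (Q * Q) ≤ M ^ 2 := by
      rw [← hL.C (M ^ 2)]
      apply hL.le
      intro x hx
      rw [eval_mul, eval_C, ← sq, ← sq_abs]
      exact pow_le_pow_left₀ (abs_nonneg _) (hM x hx) 2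
    have h3 := A_pos h d
    rcases hM0.lt_or_eq with h4 | h4
    · exact h4
    · rw [← h4] at h2
      have : 0 < A a d ^ 2 := by positivity
      nlinarith
  obtain ⟨ρ, hρ⟩ : ∃ ρ, ρ = M / 2 := ⟨_, rfl⟩
  have hρ0 : 0 < ρ := by rw [hρ]; positivity
  have hv0 : 0 < v := hMpos.trans hv
  have hsq : Q.eval (1 / 2) ^ 2 = v ^ 2 := by rw [hvv, sq_abs]
  rw [hsq]
  obtain ⟨D, hD⟩ : ∃ D, D = √(v ^ 2 - M ^ 2) := ⟨_, rfl⟩
  rw [← hD]
  have hD2 : D ^ 2 = v ^ 2 - M ^ 2 := by rw [hD]; exact Real.sq_sqrt (by nlinarith)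
  have hD0 : 0 < D := by rw [hD]; exact Real.sqrt_pos.2 (by nlinarith)
  have hDv : D < v := by
    by_contra h1
    push Not at h1
    nlinarith
  obtain ⟨lam, hlam⟩ : ∃ lam, lam = (v + D) / 2 := ⟨_, rfl⟩
  obtain ⟨mu, hmu⟩ : ∃ mu, mu = (v - D) / 2 := ⟨_, rfl⟩
  rw [← hmu]
  have hmu0 : 0 < mu := by rw [hmu]; linarith
  have hlam0 : 0 < lam := by rw [hlam]; linarith
  have hsum : v = lam + mu := by rw [hlam, hmu]; ring
  have hprod : lam * mu = ρ ^ 2 := by rw [hlam, hmu, hρ]; nlinarith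
  have hlm : mu < lam := by rw [hlam, hmu]; linarith
  -- the norm of the Dickson polynomials
  have hF : ∀ m : ℕ, L (Fd Q ρ m * Fd Q ρ m) ≤ 4 * ρ ^ (2 * m) := by
    intro m
    rw [← hL.C (4 * ρ ^ (2 * m))]
    apply hL.le
    intro x hx
    rw [eval_mul, eval_C, ← sq]
    exact Fd_bound hρ0 (by rw [hρ]; linarith [hM x hx]) m
  have hd' : 0 < Q.natDegree := hdd ▸ hd
  have hFdeg : ∀ m : ℕ, (Fd Q ρ m).natDegree ≤ m * d := fun m => by
    rw [hdd]; exact (Fd_monic hQ hd' ρ m).2.2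
  have hA : ∀ m : ℕ, A a (m * d) ^ 2 ≤ 4 * ρ ^ (2 * m) := by
    intro m
    rcases m with _ | m
    · rw [zero_mul, A_zero]; norm_num
    · refine (A_le hL h ?_ (Fd_monic hQ hd' ρ m).1).trans (hF (m + 1))
      rw [hdd]; exact (Fd_monic hQ hd' ρ m).2.1
  -- all products
  obtain ⟨C1, hC1, hA1⟩ : ∃ C1 : ℝ, 0 < C1 ∧ ∀ n : ℕ, A a n ^ d ≤ C1 * ρ ^ n := by
    refine ⟨2 ^ d * (1 + (ρ ^ d)⁻¹), by positivity, fun n => ?_⟩
    obtain ⟨m, h1, h2⟩ : ∃ m, m * d ≤ n ∧ n ≤ m * d + d :=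
      ⟨n / d, Nat.div_mul_le_self n d, (Nat.lt_div_mul_add hd).le⟩
    have h3 : A a n ≤ 2 * ρ ^ m := by
      refine (A_anti hL h h1).trans ?_
      have h4 : A a (m * d) ^ 2 ≤ (2 * ρ ^ m) ^ 2 := by
        refine (hA m).trans (le_of_eq ?_)
        rw [mul_comm 2 m, pow_mul]; ring
      exact (abs_le_of_sq_le_sq' h4 (by positivity)).2
    have h4 : A a n ^ d ≤ 2 ^ d * ρ ^ (m * d) := by
      refine (pow_le_pow_left₀ (A_pos h n).le h3 d).trans (le_of_eq ?_)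
      rw [mul_pow, ← pow_mul]
    refine h4.trans ?_
    rw [mul_assoc]
    apply mul_le_mul_of_nonneg_left _ (by positivity)
    rcases le_total ρ 1 with h5 | h5
    · have h6 : ρ ^ (m * d) * ρ ^ d ≤ ρ ^ n := by
        rw [← pow_add]
        exact pow_le_pow_of_le_one hρ0.le h5 h2
      have h7 : ρ ^ (m * d) ≤ (ρ ^ d)⁻¹ * ρ ^ n := by
        rw [inv_mul_eq_div, le_div_iff₀ (by positivity)]
        exact h6
      have h8 : 0 ≤ ρ ^ n := by positivity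
      linarith
    · have h6 : ρ ^ (m * d) ≤ ρ ^ n := pow_le_pow_right₀ h5 h1
      have h8 : 0 ≤ (ρ ^ d)⁻¹ * ρ ^ n := by positivity
      linarith
  obtain ⟨c, hc, hc'⟩ := prod_ge hs (fun i => h.a_pos (2 * i + 1)) hk
  -- the values at the centre
  obtain ⟨κ, hκ⟩ : ∃ κ, κ = ρ ^ 2 / (s ^ d) ^ 2 := ⟨_, rfl⟩
  have hκ0 : 0 < κ := by rw [hκ]; positivity
  obtain ⟨C2, hC2⟩ : ∃ C2, C2 = C1 / (c ^ d) ^ 2 := ⟨_, rfl⟩
  have hC20 : 0 < C2 := by rw [hC2]; positivity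
  have hval : ∀ j : ℕ, |(P (2 * j)).eval (1 / 2)| ^ d ≤ C2 * κ ^ j := by
    intro j
    have h1 := eval_A hL h j
    have h2 := hA1 (2 * j)
    rw [← h1, mul_pow] at h2
    have h3 : (c * s ^ j) ^ 2 ≤ (∏ i ∈ range j, a (2 * i + 2)) ^ 2 :=
      pow_le_pow_left₀ (by positivity) (hc' j) 2
    have h4 : ((c * s ^ j) ^ 2) ^ d ≤ ((∏ i ∈ range j, a (2 * i + 2)) ^ 2) ^ d :=
      pow_le_pow_left₀ (by positivity) h3 d
    have h5 : |(P (2 * j)).eval (1 / 2)| ^ d * ((c * s ^ j) ^ 2) ^ d ≤ C1 * ρ ^ (2 * j) :=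
      (mul_le_mul_of_nonneg_left h4 (by positivity)).trans h2
    have h6 : ((c * s ^ j) ^ 2) ^ d = (c ^ d) ^ 2 * ((s ^ d) ^ 2) ^ j := by ring
    rw [h6, ← le_div_iff₀ (by positivity)] at h5
    refine h5.trans (le_of_eq ?_)
    rw [hC2, hκ, div_pow, div_mul_div_comm, pow_mul]
  obtain ⟨η, hη⟩ : ∃ η, η = max 1 κ := ⟨_, rfl⟩
  have hη1 : 1 ≤ η := by rw [hη]; exact le_max_left _ _
  have hκη : κ ≤ η := by rw [hη]; exact le_max_right _ _
  have hη0 : 0 < η := by linarith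
  have hterm : ∀ m j : ℕ, j ≤ m * d → (((P j).eval (1 / 2)) ^ 2) ^ d ≤ C2 ^ 2 * (η ^ d) ^ m := by
    intro m j hj
    rcases Nat.even_or_odd' j with ⟨i, rfl | rfl⟩
    · have h1 : (((P (2 * i)).eval (1 / 2)) ^ 2) ^ d = (|(P (2 * i)).eval (1 / 2)| ^ d) ^ 2 := by
        rw [← sq_abs, ← pow_mul, ← pow_mul, mul_comm 2 d]
      rw [h1]
      have h2 : |(P (2 * i)).eval (1 / 2)| ^ d ≤ C2 * η ^ i := by
        refine (hval i).trans (mul_le_mul_of_nonneg_left ?_ hC20.le)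
        exact pow_le_pow_left₀ hκ0.le hκη i
      refine (pow_le_pow_left₀ (by positivity) h2 2).trans ?_
      rw [mul_pow, ← pow_mul, ← pow_mul]
      apply mul_le_mul_of_nonneg_left _ (by positivity)
      apply pow_le_pow_right₀ hη1
      rw [mul_comm i 2, mul_comm d m]
      exact hj
    · rw [h.eval_odd hL.sym i]
      have : ((0 : ℝ) ^ 2) ^ d = 0 := by
        rw [zero_pow (by norm_num), zero_pow hd.ne']
      rw [this]
      positivity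
  -- growth
  have hgrow : ∀ m : ℕ, ((lam ^ 2 / ρ ^ 2 / η) ^ d) ^ m ≤
      (4 ^ d * C2 ^ 2) * ((m * d + 1 : ℕ) : ℝ) ^ d := by
    intro m
    have h1 := Fd_half hlam0.le hmu0.le (by rw [← hvv, hsum] : |Q.eval (1 / 2)| = lam + mu) hprod m
    have h2 := h.christoffel hL.sq (m * d) (Fd Q ρ m) (hFdeg m) (1 / 2)
    set S := ∑ j ∈ range (m * d + 1), ((P j).eval (1 / 2)) ^ 2 with hS
    have hS0 : 0 ≤ S := sum_nonneg fun j _ => sq_nonneg _
    have h3 : lam ^ (2 * m) ≤ 4 * ρ ^ (2 * m) * S :=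
      h1.trans (h2.trans (mul_le_mul_of_nonneg_right (hF m) hS0))
    have h4 : (lam ^ 2 / ρ ^ 2) ^ m ≤ 4 * S := by
      rw [div_pow, ← pow_mul, ← pow_mul, div_le_iff₀ (by positivity)]
      linarith
    have h5 : S ^ d ≤ ((m * d + 1 : ℕ) : ℝ) ^ d * (C2 ^ 2 * (η ^ d) ^ m) :=
      sum_pow_le (fun j => sq_nonneg _) (fun j hj => hterm m j hj)
    have h6 : ((lam ^ 2 / ρ ^ 2) ^ m) ^ d ≤ 4 ^ d * S ^ d := by
      rw [← mul_pow]
      exact pow_le_pow_left₀ (by positivity) h4 d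
    have h7 : ((lam ^ 2 / ρ ^ 2 / η) ^ d) ^ m = ((lam ^ 2 / ρ ^ 2) ^ m) ^ d / (η ^ d) ^ m := by
      rw [div_pow (lam ^ 2 / ρ ^ 2) η d, div_pow ((lam ^ 2 / ρ ^ 2) ^ d) (η ^ d) m,
        pow_right_comm (lam ^ 2 / ρ ^ 2) d m]
    rw [h7, div_le_iff₀ (by positivity)]
    refine h6.trans ((mul_le_mul_of_nonneg_left h5 (by positivity)).trans (le_of_eq ?_))
    ring
  have hr := le_one_of_growth hgrow
  have hr1 : lam ^ 2 / ρ ^ 2 / η ≤ 1 := by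
    by_contra h1
    push Not at h1
    exact absurd hr (not_le.2 (one_lt_pow₀ h1 hd.ne'))
  have hr2 : lam ^ 2 / ρ ^ 2 ≤ η := by rwa [div_le_one hη0] at hr1
  have hr3 : 1 < lam ^ 2 / ρ ^ 2 := by
    rw [one_lt_div (by positivity), ← hprod]
    nlinarith
  have hr4 : lam ^ 2 / ρ ^ 2 ≤ κ := by
    rcases max_choice 1 κ with h1 | h1
    · rw [hη, h1] at hr2; linarith
    · rw [hη, h1] at hr2; exact hr2
  rw [hκ, div_le_div_iff₀ (by positivity) (by positivity)] at hr4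
  have h1 : (lam * s ^ d) ^ 2 ≤ (lam * mu) ^ 2 := by
    rw [hprod, mul_pow]
    linarith
  have h2 := (abs_le_of_sq_le_sq' h1 (by positivity)).2
  exact le_of_mul_le_mul_left h2 hlam0

end Pool.Agent.H60.CE
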