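import Mathlib
import Pool.Agent.H60.CE.Main

/-!
# The equilibrium measure of the Cantor set is symmetric
-/

set_option autoImplicit false

open Polynomial MeasureTheory Filter

namespace Pool.Agent.H60.CE

/-- The logarithmic energy of a measure (carried by a set of diameter at most one). -/
noncomputable def energy (μ : Measure ℝ) : ENNReal :=
  ∫⁻ x, ∫⁻ y, (if x = y then ⊤ else ENNReal.ofReal (-Real.log |x - y|)) ∂μ ∂μ

/-- `μ` is the equilibrium measure of the set `K`: the one probability measure on `K` of least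
logarithmic energy. -/
structure IsEquilibrium (μ : Measure ℝ) (K : Set ℝ) : Prop where
  prob : IsProbabilityMeasure μ
  supp : μ Kᶜ = 0
  least : ∀ ν : Measure ℝ, IsProbabilityMeasure ν → ν Kᶜ = 0 → ν ≠ μ → energy μ < energy ν

theorem refl_preCantor (n : ℕ) : ∀ x : ℝ, x ∈ preCantorSet n → 1 - x ∈ preCantorSet n := by
  induction n with
  | zero =>
    intro x hx
    rw [preCantorSet_zero] at hx ⊢
    exact ⟨by linarith [hx.2], by linarith [hx.1]⟩
  | succ n ih =>
    intro x hx
    rw [preCantorSet_succ] at hx ⊢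
    rcases hx with ⟨y, hy, rfl⟩ | ⟨y, hy, rfl⟩
    · right
      exact ⟨1 - y, ih y hy, by simp only; ring⟩
    · left
      exact ⟨1 - y, ih y hy, by simp only; ring⟩

theorem refl_cantor (x : ℝ) (hx : x ∈ cantorSet) : 1 - x ∈ cantorSet := by
  rw [cantorSet, Set.mem_iInter] at hx ⊢
  exact fun n => refl_preCantor n x (hx n)

theorem gap_cantor (x : ℝ) (hx : x ∈ cantorSet) : 1 / 36 ≤ (x - 1 / 2) ^ 2 := by
  rw [cantorSet_eq_union_halves] at hx
  rcases hx with ⟨y, hy, rfl⟩ | ⟨y, hy, rfl⟩
  · have h := cantorSet_subset_unitInterval hy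
    simp only
    nlinarith [h.1, h.2]
  · have h := cantorSet_subset_unitInterval hy
    simp only
    nlinarith [h.1, h.2]

theorem measEmb : MeasurableEmbedding (fun x : ℝ => 1 - x) :=
  (MeasurableEquiv.subLeft (1 : ℝ)).measurableEmbedding

theorem energy_map (μ : Measure ℝ) : energy (μ.map (fun x => 1 - x)) = energy μ := by
  unfold energy
  rw [measEmb.lintegral_map]
  refine lintegral_congr fun x => ?_
  rw [measEmb.lintegral_map]
  refine lintegral_congr fun y => ?_
  have h1 : (1 - x = 1 - y) ↔ x = y := by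
    constructor
    · intro h; linarith
    · intro h; rw [h]
  have h2 : |1 - x - (1 - y)| = |x - y| := by
    rw [abs_sub_comm x y]; congr 1; ring
  by_cases h : x = y
  · rw [if_pos h, if_pos (h1.2 h)]
  · rw [if_neg h, if_neg (fun h' => h (h1.1 h')), h2]

theorem map_eq {μ : Measure ℝ} (h : IsEquilibrium μ cantorSet) :
    μ.map (fun x => 1 - x) = μ := by
  by_contra hne
  have := h.prob
  have h1 : IsProbabilityMeasure (μ.map (fun x => 1 - x)) :=
    Measure.isProbabilityMeasure_map measEmb.measurable.aemeasurable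
  have h2 : (μ.map (fun x => 1 - x)) cantorSetᶜ = 0 := by
    rw [measEmb.map_apply]
    refine measure_mono_null ?_ h.supp
    intro x hx hx'
    exact hx (refl_cantor x hx')
  have h3 := h.least _ h1 h2 hne
  rw [energy_map] at h3
  exact lt_irrefl _ h3

theorem ae_mem {μ : Measure ℝ} (h : IsEquilibrium μ cantorSet) : ∀ᵐ x ∂μ, x ∈ cantorSet := by
  rw [ae_iff]
  exact h.supp

theorem integrable {μ : Measure ℝ} (h : IsEquilibrium μ cantorSet) (q : ℝ[X]) :
    Integrable (fun x => q.eval x) μ := by
  have := h.prob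
  have h1 : IntegrableOn (fun x => q.eval x) (Set.Icc 0 1) μ :=
    q.continuous.continuousOn.integrableOn_compact isCompact_Icc
  have h2 : μ.restrict (Set.Icc 0 1) = μ :=
    Measure.restrict_eq_self_of_ae_mem ((ae_mem h).mono fun x hx => cantorSet_subset_unitInterval hx)
  rwa [IntegrableOn, h2] at h1

/-- the functional -/
noncomputable def Lm {μ : Measure ℝ} (h : IsEquilibrium μ cantorSet) : ℝ[X] →ₗ[ℝ] ℝ where
  toFun q := ∫ x, q.eval x ∂μ
  map_add' p q := by
    simp only [eval_add]
    exact integral_add (integrable h p) (integrable h q)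
  map_smul' c q := by
    simp only [eval_smul, smul_eq_mul, RingHom.id_apply]
    exact integral_const_mul c _

theorem nice {μ : Measure ℝ} (h : IsEquilibrium μ cantorSet) : Nice (Lm h) cantorSet where
  pos p hp := integral_nonneg_of_ae ((ae_mem h).mono fun x hx => hp x hx)
  one := by
    have := h.prob
    change ∫ x, (1 : ℝ[X]).eval x ∂μ = 1
    simp
  sym p := by
    change ∫ x, (p.comp (1 - X)).eval x ∂μ = ∫ x, p.eval x ∂μ
    conv_rhs => rw [← map_eq h]
    rw [measEmb.integral_map]
    simp [eval_comp]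
  sub x hx := cantorSet_subset_unitInterval hx
  gap := gap_cantor

/-- `P` is the sequence of orthonormal polynomials of `μ`, with recurrence coefficients `a`, `b`. -/
structure IsOPSystem (μ : Measure ℝ) (P : ℕ → ℝ[X]) (a b : ℕ → ℝ) : Prop where
  natDegree_eq : ∀ n, (P n).natDegree = n
  leadingCoeff_pos : ∀ n, 0 < (P n).leadingCoeff
  orthonormal : ∀ m n, ∫ x, (P m).eval x * (P n).eval x ∂μ = if m = n then 1 else 0
  recurrence_zero : X * P 0 = C (a 1) * P 1 + C (b 1) * P 0
  recurrence : ∀ n, X * P (n + 1) =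
    C (a (n + 2)) * P (n + 2) + C (b (n + 2)) * P (n + 1) + C (a (n + 1)) * P n

theorem op {μ : Measure ℝ} (h : IsEquilibrium μ cantorSet) {P : ℕ → ℝ[X]} {a b : ℕ → ℝ}
    (hP : IsOPSystem μ P a b) : OP (Lm h) P a b where
  deg := hP.natDegree_eq
  lead := hP.leadingCoeff_pos
  orth m n := by
    rw [← hP.orthonormal m n]
    change ∫ x, (P m * P n).eval x ∂μ = _
    simp only [eval_mul]
  rec0 := hP.recurrence_zero
  recur := hP.recurrence

/-- passing to the lower limit -/
theorem pow_le_of_forall {l B : ℝ} {d : ℕ} (hl : 0 ≤ l) (hd : 0 < d) (hB : 0 ≤ B)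
    (h : ∀ s, 0 < s → s < l → s ^ d ≤ B) : l ^ d ≤ B := by
  rcases hl.eq_or_lt with h0 | h0
  · rw [← h0, zero_pow hd.ne']; exact hB
  by_contra hlt
  push Not at hlt
  have h1 : ∀ᶠ s in nhds l, B < s ^ d := (continuous_pow d).continuousAt.eventually (lt_mem_nhds hlt)
  have h2 : ∀ᶠ s in nhdsWithin l (Set.Iio l), B < s ^ d ∧ 0 < s ∧ s < l := by
    refine (h1.filter_mono nhdsWithin_le_nhds).and (Filter.Eventually.and ?_ ?_)
    · exact (lt_mem_nhds h0).filter_mono nhdsWithin_le_nhds
    · exact eventually_mem_nhdsWithin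
  obtain ⟨s, hs1, hs2, hs3⟩ := h2.exists
  exact absurd (h s hs2 hs3) (not_le.2 hs1)

end Pool.Agent.H60.CE
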