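import Mathlib
import Pool.Agent.H60.CE.Meas

/-!
# The lower limit
-/

set_option autoImplicit false

open Polynomial MeasureTheory Filter

namespace Pool.Agent.H60.CE

variable {μ : Measure ℝ} {P : ℕ → ℝ[X]} {a b : ℕ → ℝ}

theorem a_mem (h : IsEquilibrium μ cantorSet) (hP : IsOPSystem μ P a b) (n : ℕ) (hn : 1 ≤ n) :
    0 < a n ∧ a n ≤ 1 := by
  obtain ⟨m, rfl⟩ : ∃ m, n = m + 1 := ⟨n - 1, by omega⟩
  exact ⟨(op h hP).a_pos m, a_le_one (nice h) (op h hP) m⟩

theorem key (h : IsEquilibrium μ cantorSet) (hP : IsOPSystem μ P a b) {l : ℝ} (hl0 : 0 ≤ l)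
    (hl : ∀ s, s < l → ∀ᶠ k in atTop, s ≤ a (2 * k + 2)) (Q : ℝ[X]) (M : ℝ) (hQ : Q.Monic)
    (hd : 0 < Q.natDegree) (hM : ∀ x ∈ cantorSet, |Q.eval x| ≤ M) (hv : M < |Q.eval (1 / 2)|) :
    l ^ Q.natDegree ≤ (|Q.eval (1 / 2)| - √(Q.eval (1 / 2) ^ 2 - M ^ 2)) / 2 := by
  refine pow_le_of_forall hl0 hd ?_ ?_
  · have h1 : √(Q.eval (1 / 2) ^ 2 - M ^ 2) ≤ |Q.eval (1 / 2)| := by
      rw [← Real.sqrt_sq_eq_abs]
      apply Real.sqrt_le_sqrt
      have := sq_nonneg M
      linarith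
    linarith
  · intro s hs hsl
    obtain ⟨k0, hk0⟩ := eventually_atTop.1 (hl s hsl)
    exact main_bound (nice h) (op h hP) hQ hd hM hv hs hk0

theorem key_sixth (h : IsEquilibrium μ cantorSet) (hP : IsOPSystem μ P a b) {l : ℝ} (hl0 : 0 ≤ l)
    (hl : ∀ s, s < l → ∀ᶠ k in atTop, s ≤ a (2 * k + 2)) : l ≤ 1 / 6 := by
  have hdeg1 : (C (5 / 36) : ℝ[X]).degree < ((X - C (1 / 2)) ^ 2 : ℝ[X]).degree := by
    rw [degree_pow, degree_X_sub_C]
    refine lt_of_le_of_lt degree_C_le ?_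
    norm_num
  have hmon : ((X - C (1 / 2)) ^ 2 - C (5 / 36) : ℝ[X]).Monic :=
    ((monic_X_sub_C _).pow 2).sub_of_left hdeg1
  have hdeg : ((X - C (1 / 2)) ^ 2 - C (5 / 36) : ℝ[X]).natDegree = 2 := by
    rw [natDegree_sub_C, natDegree_pow, natDegree_X_sub_C]
  have hev : ∀ x : ℝ, ((X - C (1 / 2)) ^ 2 - C (5 / 36) : ℝ[X]).eval x = (x - 1 / 2) ^ 2 - 5 / 36 := by
    intro x
    simp
  have h1 := key h hP hl0 hl ((X - C (1 / 2)) ^ 2 - C (5 / 36)) (1 / 9) hmon (by rw [hdeg]; norm_num)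
    (by
      intro x hx
      rw [hev, abs_le]
      have h2 := gap_cantor x hx
      have h3 := cantorSet_subset_unitInterval hx
      constructor
      · linarith
      · nlinarith [h3.1, h3.2])
    (by rw [hev]; norm_num [abs_of_neg])
  rw [hdeg, hev] at h1
  have h2 : ((1 / 2 - 1 / 2 : ℝ) ^ 2 - 5 / 36) ^ 2 - (1 / 9) ^ 2 = (1 / 12) ^ 2 := by norm_num
  have h3 : |(1 / 2 - 1 / 2 : ℝ) ^ 2 - 5 / 36| = 5 / 36 := by
    rw [abs_of_neg] <;> norm_num
  rw [h2, h3, Real.sqrt_sq (by norm_num)] at h1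
  have h4 : l ^ 2 ≤ (1 / 6) ^ 2 := by
    refine h1.trans (by norm_num)
  exact (abs_le_of_sq_le_sq' h4 (by norm_num)).2

theorem bdd_below (h : IsEquilibrium μ cantorSet) (hP : IsOPSystem μ P a b) :
    IsBoundedUnder (· ≥ ·) atTop a :=
  isBoundedUnder_of_eventually_ge (a := 0)
    ((eventually_ge_atTop 1).mono fun n hn => (a_mem h hP n hn).1.le)

theorem bdd_above (h : IsEquilibrium μ cantorSet) (hP : IsOPSystem μ P a b) :
    IsBoundedUnder (· ≤ ·) atTop a :=
  isBoundedUnder_of_eventually_le (a := 1)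
    ((eventually_ge_atTop 1).mono fun n hn => (a_mem h hP n hn).2)

theorem tendsto_two_mul : Tendsto (fun k : ℕ => 2 * k) atTop atTop :=
  tendsto_atTop_mono (fun k => by simp only [id]; omega) tendsto_id

theorem bdd_below' (h : IsEquilibrium μ cantorSet) (hP : IsOPSystem μ P a b) :
    IsBoundedUnder (· ≥ ·) atTop (fun k => a (2 * k)) :=
  isBoundedUnder_of_eventually_ge (a := 0)
    ((eventually_ge_atTop 1).mono fun n hn => (a_mem h hP (2 * n) (by omega)).1.le)

theorem bdd_above' (h : IsEquilibrium μ cantorSet) (hP : IsOPSystem μ P a b) :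
    IsBoundedUnder (· ≤ ·) atTop (fun k => a (2 * k)) :=
  isBoundedUnder_of_eventually_le (a := 1)
    ((eventually_ge_atTop 1).mono fun n hn => (a_mem h hP (2 * n) (by omega)).2)

theorem liminf_even (h : IsEquilibrium μ cantorSet) (hP : IsOPSystem μ P a b) :
    0 ≤ liminf (fun k => a (2 * k)) atTop ∧
    ∀ s, s < liminf (fun k => a (2 * k)) atTop → ∀ᶠ k in atTop, s ≤ a (2 * k + 2) := by
  constructor
  · exact le_liminf_of_le (bdd_above' h hP).isCoboundedUnder_ge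
      ((eventually_ge_atTop 1).mono fun n hn => (a_mem h hP (2 * n) (by omega)).1.le)
  · intro s hs
    have h1 := eventually_lt_of_lt_liminf hs (bdd_below' h hP)
    obtain ⟨k0, hk0⟩ := eventually_atTop.1 h1
    refine eventually_atTop.2 ⟨k0, fun k hk => ?_⟩
    have := hk0 (k + 1) (by omega)
    rw [show 2 * (k + 1) = 2 * k + 2 by ring] at this
    exact this.le

theorem liminf_eq (h : IsEquilibrium μ cantorSet) (hP : IsOPSystem μ P a b) :
    liminf a atTop = liminf (fun k => a (2 * k)) atTop := by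
  obtain ⟨h0, h1⟩ := liminf_even h hP
  have h6 := key_sixth h hP h0 h1
  apply le_antisymm
  · refine le_of_forall_lt fun s hs => ?_
    obtain ⟨t, hst, ht⟩ := exists_between hs
    refine lt_of_lt_of_le hst (le_liminf_of_le (bdd_above' h hP).isCoboundedUnder_ge ?_)
    exact (tendsto_two_mul.eventually (eventually_lt_of_lt_liminf ht (bdd_below h hP))).mono
      fun k hk => hk.le
  · refine le_of_forall_lt fun s hs => ?_
    obtain ⟨t, hst, ht⟩ := exists_between hs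
    refine lt_of_lt_of_le hst (le_liminf_of_le (bdd_above h hP).isCoboundedUnder_ge ?_)
    obtain ⟨k0, hk0⟩ := eventually_atTop.1 (eventually_lt_of_lt_liminf ht (bdd_below' h hP))
    refine eventually_atTop.2 ⟨2 * k0, fun n hn => ?_⟩
    rcases Nat.even_or_odd' n with ⟨k, rfl | rfl⟩
    · exact (hk0 k (by omega)).le
    · have := odd_ge (nice h) (op h hP) k
      linarith

end Pool.Agent.H60.CE
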